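import Mathlib

set_option autoImplicit false

/-!
Definitions for problem MP_97e4cf_co (typical ranks in symmetric matrix completion).
-/

namespace Pool.Agent.Lib.MP_97e4cf_co

open Matrix

/-- A semisimple graph on the vertex set `Fin N`: a set of unordered pairs of vertices.
`s(i, j)` with `i ≠ j` is an edge, `s(i, i)` is a loop. The members are the known entries. -/
abbrev SemisimpleGraph (N : ℕ) : Type := Set (Sym2 (Fin N))

/-- A `G`-partial matrix: an element of `ℝ^E`, one real number for each edge and each loop. -/
abbrev PartialMatrix {N : ℕ} (G : SemisimpleGraph N) : Type := G → ℝ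

/-- `A` is a completion of the `G`-partial matrix `M`: a real symmetric matrix whose entries at the
edges and loops of `G` are the prescribed ones. -/
def IsCompletion {N : ℕ} (G : SemisimpleGraph N) (M : PartialMatrix G)
    (A : Matrix (Fin N) (Fin N) ℝ) : Prop :=
  A.IsSymm ∧ ∀ (i j : Fin N) (h : s(i, j) ∈ G), A i j = M ⟨s(i, j), h⟩

/-- `M` is minimally completable to rank `r`. -/
def MinCompletable {N : ℕ} (G : SemisimpleGraph N) (M : PartialMatrix G) (r : ℕ) : Prop :=
  (∃ A, IsCompletion G M A ∧ A.rank = r) ∧ ∀ A, IsCompletion G M A → r ≤ A.rank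

/-- `r` is a typical rank of `G`: some nonempty open set of `G`-partial matrices consists of
partial matrices which are all minimally completable to rank `r`. -/
def IsTypicalRank {N : ℕ} (G : SemisimpleGraph N) (r : ℕ) : Prop :=
  ∃ U : Set (PartialMatrix G), IsOpen U ∧ U.Nonempty ∧ ∀ M ∈ U, MinCompletable G M r

/-- `G` is full-rank typical: `N` is a typical rank of `G`. -/
def FullRankTypical {N : ℕ} (G : SemisimpleGraph N) : Prop := IsTypicalRank G N

/-- The inertia of the real symmetric matrix `A` is `(p, q, z)`: it has `p` positive, `q` negative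
and `z` zero eigenvalues, counted with multiplicity. -/
def HasInertia {N : ℕ} (A : Matrix (Fin N) (Fin N) ℝ) (p q z : ℕ) : Prop :=
  ∃ hA : A.IsHermitian,
    (Finset.univ.filter (fun i => 0 < hA.eigenvalues i)).card = p ∧
    (Finset.univ.filter (fun i => hA.eigenvalues i < 0)).card = q ∧
    (Finset.univ.filter (fun i => hA.eigenvalues i = 0)).card = z

/-- `c` is a proper bicoloring (`true` is red, `false` is blue) of the complement of `G`: two
vertices `i`, `j` (possibly equal) for which `s(i, j)` is not in `G` get different colors. In
particular there is no such `c` when the complement has a loop. -/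
def IsProperBicoloring {N : ℕ} (G : SemisimpleGraph N) (c : Fin N → Bool) : Prop :=
  ∀ i j : Fin N, s(i, j) ∉ G → c i ≠ c j

end Pool.Agent.Lib.MP_97e4cf_co
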