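import Mathlib
import Pool.Agent.Lib.MP_97e4cf_co.Defs

set_option autoImplicit false

namespace Pool.Agent.Lib.MP_97e4cf_co

open Matrix

/-- the quadratic form in eigen-coordinates -/
theorem quad_eq {N : ℕ} {A : Matrix (Fin N) (Fin N) ℝ} (hA : A.IsHermitian) (v : Fin N → ℝ) :
    v ⬝ᵥ (A *ᵥ v) = ∑ i, hA.eigenvalues i *
      ((star (hA.eigenvectorUnitary : Matrix (Fin N) (Fin N) ℝ) *ᵥ v) i) ^ 2 := by
  set U : Matrix (Fin N) (Fin N) ℝ := (hA.eigenvectorUnitary : Matrix (Fin N) (Fin N) ℝ) with hU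
  have hsp : A = U * diagonal hA.eigenvalues * star U := by
    have := hA.spectral_theorem
    rw [Unitary.conjStarAlgAut_apply] at this
    exact this
  have h1 : A *ᵥ v = U *ᵥ (diagonal hA.eigenvalues *ᵥ (star U *ᵥ v)) := by
    conv_lhs => rw [hsp]
    rw [← mulVec_mulVec, ← mulVec_mulVec]
  have h2 : v ⬝ᵥ (U *ᵥ (diagonal hA.eigenvalues *ᵥ (star U *ᵥ v)))
      = (star U *ᵥ v) ⬝ᵥ (diagonal hA.eigenvalues *ᵥ (star U *ᵥ v)) := by
    rw [dotProduct_mulVec, ← mulVec_transpose]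
    rfl
  rw [h1, h2]
  simp only [dotProduct, mulVec_diagonal]
  apply Finset.sum_congr rfl
  intro i _
  ring

theorem card_pos_ge {N p : ℕ} {A : Matrix (Fin N) (Fin N) ℝ} (hA : A.IsHermitian)
    (P : Matrix (Fin N) (Fin p) ℝ)
    (hP : ∀ x : Fin p → ℝ, x ≠ 0 → 0 < (P *ᵥ x) ⬝ᵥ (A *ᵥ (P *ᵥ x))) :
    p ≤ (Finset.univ.filter (fun i => 0 < hA.eigenvalues i)).card := by
  by_contra hlt
  push Not at hlt
  set T := {i : Fin N // 0 < hA.eigenvalues i}
  have hT : Fintype.card T < p := by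
    rw [Fintype.card_subtype]; exact hlt
  let f : (Fin p → ℝ) →ₗ[ℝ] (T → ℝ) :=
    (LinearMap.funLeft ℝ ℝ (Subtype.val : T → Fin N)) ∘ₗ
      (Matrix.mulVecLin (star (hA.eigenvectorUnitary : Matrix (Fin N) (Fin N) ℝ)))
      ∘ₗ (Matrix.mulVecLin P)
  have hker : LinearMap.ker f ≠ ⊥ := by
    apply LinearMap.ker_ne_bot_of_finrank_lt
    simpa using hT
  obtain ⟨x, hx, hx0⟩ := (Submodule.ne_bot_iff _).mp hker
  have hpos := hP x hx0
  rw [quad_eq hA] at hpos
  apply absurd hpos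
  rw [not_lt]
  apply Finset.sum_nonpos
  intro i _
  by_cases hi : 0 < hA.eigenvalues i
  · have : (star (hA.eigenvectorUnitary : Matrix (Fin N) (Fin N) ℝ) *ᵥ (P *ᵥ x)) i = 0 := by
      have := congrFun (LinearMap.mem_ker.mp hx) ⟨i, hi⟩
      simpa [f, LinearMap.funLeft] using this
    rw [this]; simp
  · exact mul_nonpos_of_nonpos_of_nonneg (not_lt.mp hi) (sq_nonneg _)

theorem card_neg_ge {N q : ℕ} {A : Matrix (Fin N) (Fin N) ℝ} (hA : A.IsHermitian)
    (P : Matrix (Fin N) (Fin q) ℝ)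
    (hP : ∀ x : Fin q → ℝ, x ≠ 0 → (P *ᵥ x) ⬝ᵥ (A *ᵥ (P *ᵥ x)) < 0) :
    q ≤ (Finset.univ.filter (fun i => hA.eigenvalues i < 0)).card := by
  by_contra hlt
  push Not at hlt
  set T := {i : Fin N // hA.eigenvalues i < 0}
  have hT : Fintype.card T < q := by
    rw [Fintype.card_subtype]; exact hlt
  let f : (Fin q → ℝ) →ₗ[ℝ] (T → ℝ) :=
    (LinearMap.funLeft ℝ ℝ (Subtype.val : T → Fin N)) ∘ₗ
      (Matrix.mulVecLin (star (hA.eigenvectorUnitary : Matrix (Fin N) (Fin N) ℝ)))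
      ∘ₗ (Matrix.mulVecLin P)
  have hker : LinearMap.ker f ≠ ⊥ := by
    apply LinearMap.ker_ne_bot_of_finrank_lt
    simpa using hT
  obtain ⟨x, hx, hx0⟩ := (Submodule.ne_bot_iff _).mp hker
  have hpos := hP x hx0
  rw [quad_eq hA] at hpos
  apply absurd hpos
  rw [not_lt]
  apply Finset.sum_nonneg
  intro i _
  by_cases hi : hA.eigenvalues i < 0
  · have : (star (hA.eigenvectorUnitary : Matrix (Fin N) (Fin N) ℝ) *ᵥ (P *ᵥ x)) i = 0 := by
      have := congrFun (LinearMap.mem_ker.mp hx) ⟨i, hi⟩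
      simpa [f, LinearMap.funLeft] using this
    rw [this]; simp
  · exact mul_nonneg (not_lt.mp hi) (sq_nonneg _)

/-- If a symmetric matrix is positive definite on a `p`-dimensional and negative definite on a
`q`-dimensional subspace and `p + q = N`, then its inertia is `(p, q, 0)`. -/
theorem hasInertia_of {N p q : ℕ} {A : Matrix (Fin N) (Fin N) ℝ} (hA : A.IsHermitian)
    (P : Matrix (Fin N) (Fin p) ℝ) (Q : Matrix (Fin N) (Fin q) ℝ) (hpq : p + q = N)
    (hP : ∀ x : Fin p → ℝ, x ≠ 0 → 0 < (P *ᵥ x) ⬝ᵥ (A *ᵥ (P *ᵥ x)))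
    (hQ : ∀ x : Fin q → ℝ, x ≠ 0 → (Q *ᵥ x) ⬝ᵥ (A *ᵥ (Q *ᵥ x)) < 0) :
    HasInertia A p q 0 := by
  have h1 := card_pos_ge hA P hP
  have h2 := card_neg_ge hA Q hQ
  have hsum : (Finset.univ.filter (fun i => 0 < hA.eigenvalues i)).card
      + (Finset.univ.filter (fun i => hA.eigenvalues i < 0)).card
      + (Finset.univ.filter (fun i => hA.eigenvalues i = 0)).card = N := by
    have : (Finset.univ : Finset (Fin N)).card = N := by simp
    rw [← Finset.card_union_of_disjoint, ← Finset.card_union_of_disjoint]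
    · conv_rhs => rw [← this]
      congr 1
      ext i
      simp only [Finset.mem_union, Finset.mem_filter, Finset.mem_univ, true_and, iff_true]
      rcases lt_trichotomy 0 (hA.eigenvalues i) with h | h | h
      · exact Or.inl (Or.inl h)
      · exact Or.inr h.symm
      · exact Or.inl (Or.inr h)
    · rw [Finset.disjoint_left]
      intro i hi hi'
      simp only [Finset.mem_union, Finset.mem_filter, Finset.mem_univ, true_and] at hi hi'
      rcases hi with h | h <;> linarith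
    · rw [Finset.disjoint_left]
      intro i hi hi'
      simp only [Finset.mem_filter, Finset.mem_univ, true_and] at hi hi'
      linarith
  refine ⟨hA, ?_, ?_, ?_⟩ <;> omega

/-- A matrix with inertia `(p, q, 0)` has full rank. -/
theorem rank_of_hasInertia {N p q : ℕ} {A : Matrix (Fin N) (Fin N) ℝ} (h : HasInertia A p q 0) :
    A.rank = N := by
  obtain ⟨hA, -, -, h0⟩ := h
  rw [hA.rank_eq_card_non_zero_eigs, Fintype.card_subtype]
  have : (Finset.univ : Finset (Fin N)).card = N := by simp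
  conv_rhs => rw [← this]
  congr 1
  ext i
  simp only [Finset.mem_filter, Finset.mem_univ, true_and, iff_true]
  intro hi
  have := Finset.card_eq_zero.mp h0
  have hmem : i ∈ Finset.univ.filter (fun i => hA.eigenvalues i = 0) := by simp [hi]
  rw [this] at hmem
  simp at hmem

end Pool.Agent.Lib.MP_97e4cf_co
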