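import Mathlib
import Pool.Agent.Lib.MP_97e4cf_co.Defs
import Pool.Agent.Lib.MP_97e4cf_co.Inertia

set_option autoImplicit false

/-!
# Inertias of generic partial matrices and bicolorings of the complement

For an open set of partial matrices all of whose completions are nonsingular, the vertices which
are not isolated in the complement get a color, the sign of the diagonal entry of the inverse, and
the colors are inherited when vertices are deleted.
-/

namespace Pool.Agent.Lib.MP_97e4cf_co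

open Matrix Filter Topology

variable {N : ℕ}

/-- the principal submatrix outside `T` is nonsingular -/
def ND (T : Finset (Fin N)) (A : Matrix (Fin N) (Fin N) ℝ) : Prop :=
  ∀ v : Fin N → ℝ, (∀ i ∈ T, v i = 0) → (∀ i ∉ T, (A *ᵥ v) i = 0) → v = 0

/-- `v` solves the system with the right-hand side `b` for the principal submatrix outside `T` -/
def Sol (T : Finset (Fin N)) (A : Matrix (Fin N) (Fin N) ℝ) (b v : Fin N → ℝ) : Prop :=
  (∀ i ∈ T, v i = 0) ∧ ∀ i ∉ T, (A *ᵥ v) i = b i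

theorem exists_sol {T : Finset (Fin N)} {A : Matrix (Fin N) (Fin N) ℝ} (h : ND T A)
    (b : Fin N → ℝ) : ∃ v, Sol T A b v := by
  classical
  let L : (Fin N → ℝ) →ₗ[ℝ] (Fin N → ℝ) := LinearMap.pi fun i =>
    if i ∈ T then LinearMap.proj i else LinearMap.proj i ∘ₗ A.mulVecLin
  have hL1 : ∀ v, ∀ i ∈ T, L v i = v i := by
    intro v i hi
    simp [L, hi]
  have hL2 : ∀ v, ∀ i ∉ T, L v i = (A *ᵥ v) i := by
    intro v i hi
    simp [L, hi]
  have hinj : Function.Injective L := by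
    rw [← LinearMap.ker_eq_bot, LinearMap.ker_eq_bot']
    intro v hv
    refine h v (fun i hi => ?_) (fun i hi => ?_)
    · rw [← hL1 v i hi, hv]
      rfl
    · rw [← hL2 v i hi, hv]
      rfl
  obtain ⟨v, hv⟩ := (LinearMap.injective_iff_surjective.mp hinj)
    (fun i => if i ∈ T then 0 else b i)
  refine ⟨v, fun i hi => ?_, fun i hi => ?_⟩
  · rw [← hL1 v i hi, hv]
    simp [hi]
  · rw [← hL2 v i hi, hv]
    simp [hi]

theorem sol_dot {T : Finset (Fin N)} {A : Matrix (Fin N) (Fin N) ℝ} {b v : Fin N → ℝ}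
    (h : Sol T A b v) (w : Fin N → ℝ) (hw : ∀ i ∈ T, w i = 0) : w ⬝ᵥ (A *ᵥ v) = w ⬝ᵥ b := by
  refine Finset.sum_congr rfl fun i _ => ?_
  by_cases hi : i ∈ T
  · rw [hw i hi, zero_mul, zero_mul]
  · rw [h.2 i hi]

theorem dot_symm {A : Matrix (Fin N) (Fin N) ℝ} (hA : A.IsSymm) (v w : Fin N → ℝ) :
    v ⬝ᵥ (A *ᵥ w) = w ⬝ᵥ (A *ᵥ v) := by
  rw [dotProduct_mulVec, ← mulVec_transpose, hA.eq, dotProduct_comm]

theorem sol_symm {T : Finset (Fin N)} {A : Matrix (Fin N) (Fin N) ℝ} (hA : A.IsSymm)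
    {b b' v v' : Fin N → ℝ} (h : Sol T A b v) (h' : Sol T A b' v') : v' ⬝ᵥ b = v ⬝ᵥ b' := by
  rw [← sol_dot h v' h'.1, ← sol_dot h' v h.1, dot_symm hA]

/-- the matrices near `A0` in the known entries -/
def Near (G : SemisimpleGraph N) (A0 : Matrix (Fin N) (Fin N) ℝ) (ε : ℝ)
    (A : Matrix (Fin N) (Fin N) ℝ) : Prop :=
  A.IsSymm ∧ ∀ i j, s(i, j) ∈ G → |A i j - A0 i j| < ε

theorem vmv_mulVec (a b z : Fin N → ℝ) (i : Fin N) :
    (vecMulVec a b *ᵥ z) i = a i * (b ⬝ᵥ z) := by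
  simp only [mulVec, dotProduct, vecMulVec_apply, Finset.mul_sum, mul_assoc]

theorem near_edge {G : SemisimpleGraph N} {A0 A : Matrix (Fin N) (Fin N) ℝ} {ε : ℝ}
    (h : Near G A0 ε A) {u w : Fin N} (huw : s(u, w) ∉ G) (t : ℝ) :
    Near G A0 ε (A + t • (vecMulVec (Pi.single u 1) (Pi.single w 1) +
      vecMulVec (Pi.single w 1) (Pi.single u 1))) := by
  refine ⟨?_, ?_⟩
  · refine Matrix.IsSymm.ext fun i j => ?_
    have := h.1.apply i j
    simp only [Matrix.add_apply, Matrix.smul_apply, vecMulVec_apply, smul_eq_mul, this]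
    ring
  · intro i j hij
    have hne : ¬ (i = u ∧ j = w) := by
      rintro ⟨rfl, rfl⟩
      exact huw hij
    have hne' : ¬ (i = w ∧ j = u) := by
      rintro ⟨rfl, rfl⟩
      exact huw (by rwa [Sym2.eq_swap])
    have e1 : (Pi.single u (1 : ℝ) : Fin N → ℝ) i * (Pi.single w (1 : ℝ) : Fin N → ℝ) j = 0 := by
      by_cases h1 : i = u
      · have h2 : j ≠ w := fun h2 => hne ⟨h1, h2⟩
        rw [Pi.single_eq_of_ne h2, mul_zero]
      · rw [Pi.single_eq_of_ne h1, zero_mul]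
    have e2 : (Pi.single w (1 : ℝ) : Fin N → ℝ) i * (Pi.single u (1 : ℝ) : Fin N → ℝ) j = 0 := by
      by_cases h1 : i = w
      · have h2 : j ≠ u := fun h2 => hne' ⟨h1, h2⟩
        rw [Pi.single_eq_of_ne h2, mul_zero]
      · rw [Pi.single_eq_of_ne h1, zero_mul]
    have e3 : (A + t • (vecMulVec (Pi.single u 1) (Pi.single w 1) +
        vecMulVec (Pi.single w 1) (Pi.single u 1)) : Matrix (Fin N) (Fin N) ℝ) i j = A i j := by
      simp only [Matrix.add_apply, Matrix.smul_apply, vecMulVec_apply, smul_eq_mul, e1, e2]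
      ring
    rw [e3]
    exact h.2 i j hij

theorem near_pert {G : SemisimpleGraph N} {A0 A : Matrix (Fin N) (Fin N) ℝ} {ε : ℝ}
    (h : Near G A0 ε A) (y : Fin N → ℝ) :
    ∀ᶠ δ in 𝓝 (0 : ℝ), Near G A0 ε (A - δ • vecMulVec y y) := by
  have h1 : ∀ i j, ∀ᶠ δ in 𝓝 (0 : ℝ), s(i, j) ∈ G →
      |(A - δ • vecMulVec y y) i j - A0 i j| < ε := by
    intro i j
    by_cases hij : s(i, j) ∈ G
    · have h2 : Tendsto (fun δ : ℝ => |(A - δ • vecMulVec y y) i j - A0 i j|) (𝓝 0)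
          (𝓝 |A i j - A0 i j|) := by
        have : Continuous fun δ : ℝ => |(A - δ • vecMulVec y y) i j - A0 i j| := by
          simp only [Matrix.sub_apply, Matrix.smul_apply, smul_eq_mul]
          fun_prop
        have h3 := this.tendsto 0
        simpa using h3
      filter_upwards [h2.eventually_lt_const (h.2 i j hij)] with δ hδ _
      exact hδ
    · exact Eventually.of_forall fun δ h' => absurd h' hij
  have h2 : ∀ᶠ δ in 𝓝 (0 : ℝ), ∀ i j, s(i, j) ∈ G →
      |(A - δ • vecMulVec y y) i j - A0 i j| < ε := by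
    rw [eventually_all]
    intro i
    rw [eventually_all]
    intro j
    exact h1 i j
  filter_upwards [h2] with δ hδ
  refine ⟨?_, hδ⟩
  refine Matrix.IsSymm.ext fun i j => ?_
  have := h.1.apply i j
  simp only [Matrix.sub_apply, Matrix.smul_apply, vecMulVec_apply, smul_eq_mul, this]
  ring

/-- the solutions for a perturbation of rank one -/
theorem sol_pert {T : Finset (Fin N)} {A : Matrix (Fin N) (Fin N) ℝ} (hA : A.IsSymm)
    {y v p : Fin N → ℝ} {u : Fin N} (hv : Sol T A (Pi.single u 1) v) (hp : Sol T A y p)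
    (δ : ℝ) (hδ : 1 - δ * (y ⬝ᵥ p) ≠ 0) :
    ∃ v', Sol T (A - δ • vecMulVec y y) (Pi.single u 1) v' ∧
      v' u = v u + δ * (y ⬝ᵥ v) ^ 2 / (1 - δ * (y ⬝ᵥ p)) := by
  refine ⟨v + (δ * (y ⬝ᵥ v) / (1 - δ * (y ⬝ᵥ p))) • p, ⟨?_, ?_⟩, ?_⟩
  · intro i hi
    simp [hv.1 i hi, hp.1 i hi]
  · intro i hi
    rw [mulVec_add, mulVec_smul, sub_mulVec, sub_mulVec, smul_mulVec, smul_mulVec]
    simp only [Pi.add_apply, Pi.sub_apply, Pi.smul_apply, smul_eq_mul, vmv_mulVec, hv.2 i hi,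
      hp.2 i hi]
    field_simp
    ring
  · have h1 := sol_symm hA hv hp
    rw [dotProduct_single, mul_one] at h1
    simp only [Pi.add_apply, Pi.smul_apply, smul_eq_mul, h1, dotProduct_comm v y]
    ring

/-- for a free position `s(u, w)` the product of the diagonal entries of the inverse is
nonpositive -/
theorem edge_nonpos {G : SemisimpleGraph N} {A0 : Matrix (Fin N) (Fin N) ℝ} {ε : ℝ}
    {T : Finset (Fin N)} (hND : ∀ A, Near G A0 ε A → ND T A) {u w : Fin N}
    (huw : s(u, w) ∉ G) {A : Matrix (Fin N) (Fin N) ℝ} (hA : Near G A0 ε A) {v v' : Fin N → ℝ}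
    (hv : Sol T A (Pi.single u 1) v) (hv' : Sol T A (Pi.single w 1) v') :
    v u * v' w ≤ 0 := by
  by_contra hcon
  push Not at hcon
  have hγ : v' u = v w := by
    have := sol_symm hA.1 hv hv'
    rwa [dotProduct_single, dotProduct_single, mul_one, mul_one] at this
  obtain ⟨κ, hκ, hne⟩ : ∃ κ : ℝ, κ ^ 2 = v u * v' w ∧ κ - v w ≠ 0 := by
    have hs := Real.sq_sqrt hcon.le
    have hp := Real.sqrt_pos.mpr hcon
    by_cases h : Real.sqrt (v u * v' w) - v w = 0
    · refine ⟨-Real.sqrt (v u * v' w), by rw [neg_sq, hs], ?_⟩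
      intro h2
      linarith
    · exact ⟨_, hs, h⟩
  set t : ℝ := 1 / (κ - v w) with ht
  have ht0 : t * (κ - v w) = 1 := by
    rw [ht]
    field_simp
  set z : Fin N → ℝ := t • (κ • v - v u • v') with hz
  have hzu : z u = v u := by
    simp only [hz, Pi.smul_apply, Pi.sub_apply, smul_eq_mul, hγ]
    linear_combination (v u) * ht0
  have hzw : z w = -κ := by
    simp only [hz, Pi.smul_apply, Pi.sub_apply, smul_eq_mul]
    linear_combination (-κ) * ht0 + t * hκ
  have hz0 := hND _ (near_edge hA huw t) z ?_ ?_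
  · rw [hz0, Pi.zero_apply] at hzu
    rw [← hzu, zero_mul] at hcon
    exact lt_irrefl _ hcon
  · intro i hi
    simp [hz, hv.1 i hi, hv'.1 i hi]
  · intro i hi
    rw [add_mulVec, smul_mulVec, add_mulVec]
    simp only [Pi.add_apply, Pi.smul_apply, smul_eq_mul, vmv_mulVec, single_dotProduct, one_mul,
      hzu, hzw]
    have e1 : (A *ᵥ z) i = t * (κ * (Pi.single u (1 : ℝ) : Fin N → ℝ) i -
        v u * (Pi.single w (1 : ℝ) : Fin N → ℝ) i) := by
      rw [hz, mulVec_smul, mulVec_sub, mulVec_smul, mulVec_smul]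
      simp only [Pi.smul_apply, Pi.sub_apply, smul_eq_mul, hv.2 i hi, hv'.2 i hi]
    rw [e1]
    ring

/-- for a free position `s(u, w)` the product of the diagonal entries of the inverse is
negative -/
theorem edge_neg {G : SemisimpleGraph N} {A0 : Matrix (Fin N) (Fin N) ℝ} {ε : ℝ}
    {T : Finset (Fin N)} (hND : ∀ A, Near G A0 ε A → ND T A) {u w : Fin N}
    (huw : s(u, w) ∉ G) (huT : u ∉ T) (hwT : w ∉ T)
    {A : Matrix (Fin N) (Fin N) ℝ} (hA : Near G A0 ε A) {v v' : Fin N → ℝ}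
    (hv : Sol T A (Pi.single u 1) v) (hv' : Sol T A (Pi.single w 1) v') :
    v u * v' w < 0 := by
  refine lt_of_le_of_ne (edge_nonpos hND huw hA hv hv') fun h0 => ?_
  have hne : v ≠ 0 := by
    rintro rfl
    have := hv.2 u huT
    simp at this
  have hne' : v' ≠ 0 := by
    rintro rfl
    have := hv'.2 w hwT
    simp at this
  have hvv : 0 < v ⬝ᵥ v := by
    refine lt_of_le_of_ne (Finset.sum_nonneg fun i _ => mul_self_nonneg (v i)) fun h => ?_
    exact hne (dotProduct_self_eq_zero.mp h.symm)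
  have hvv' : 0 < v' ⬝ᵥ v' := by
    refine lt_of_le_of_ne (Finset.sum_nonneg fun i _ => mul_self_nonneg (v' i)) fun h => ?_
    exact hne' (dotProduct_self_eq_zero.mp h.symm)
  obtain ⟨y, hy, hy'⟩ : ∃ y : Fin N → ℝ, y ⬝ᵥ v ≠ 0 ∧ y ⬝ᵥ v' ≠ 0 := by
    by_cases h : v ⬝ᵥ v' = 0
    · refine ⟨v + v', ?_, ?_⟩
      · rw [add_dotProduct, dotProduct_comm v' v, h, add_zero]
        exact hvv.ne'
      · rw [add_dotProduct, h, zero_add]
        exact hvv'.ne'
    · exact ⟨v, hvv.ne', h⟩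
  obtain ⟨p, hp⟩ := exists_sol (hND A hA) y
  have hev : ∀ᶠ δ in 𝓝 (0 : ℝ), Near G A0 ε (A - δ • vecMulVec y y) ∧
      0 < 1 - δ * (y ⬝ᵥ p) := by
    refine (near_pert hA y).and ?_
    have h1 : Tendsto (fun δ : ℝ => 1 - δ * (y ⬝ᵥ p)) (𝓝 0) (𝓝 1) := by
      have : Continuous fun δ : ℝ => 1 - δ * (y ⬝ᵥ p) := by fun_prop
      have h3 := this.tendsto 0
      simpa using h3
    exact h1.eventually_const_lt one_pos
  have key : ∀ δ : ℝ, Near G A0 ε (A - δ • vecMulVec y y) → 0 < 1 - δ * (y ⬝ᵥ p) →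
      (v u + δ * (y ⬝ᵥ v) ^ 2 / (1 - δ * (y ⬝ᵥ p))) *
        (v' w + δ * (y ⬝ᵥ v') ^ 2 / (1 - δ * (y ⬝ᵥ p))) ≤ 0 := by
    intro δ h1 h2
    obtain ⟨x, hx, hxu⟩ := sol_pert hA.1 hv hp δ h2.ne'
    obtain ⟨x', hx', hxw⟩ := sol_pert hA.1 hv' hp δ h2.ne'
    rw [← hxu, ← hxw]
    exact edge_nonpos hND huw h1 hx hx'
  have hsgn : (0 ≤ v u ∧ 0 ≤ v' w) ∨ (v u ≤ 0 ∧ v' w ≤ 0) := by
    rcases mul_eq_zero.mp h0 with h | h
    · rcases le_total 0 (v' w) with h1 | h1
      · exact Or.inl ⟨h.ge, h1⟩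
      · exact Or.inr ⟨h.le, h1⟩
    · rcases le_total 0 (v u) with h1 | h1
      · exact Or.inl ⟨h1, h.ge⟩
      · exact Or.inr ⟨h1, h.le⟩
  have hy2 : 0 < (y ⬝ᵥ v) ^ 2 := by positivity
  have hy2' : 0 < (y ⬝ᵥ v') ^ 2 := by positivity
  rcases hsgn with ⟨h1, h2⟩ | ⟨h1, h2⟩
  · obtain ⟨δ, ⟨hδ1, hδ2⟩, hδ0⟩ := ((hev.filter_mono nhdsWithin_le_nhds).and
      (self_mem_nhdsWithin : Set.Ioi (0 : ℝ) ∈ 𝓝[>] 0)).exists
    have hδ0' : 0 < δ := hδ0
    have h3 := key δ hδ1 hδ2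
    have h4 : 0 < δ * (y ⬝ᵥ v) ^ 2 / (1 - δ * (y ⬝ᵥ p)) := by positivity
    have h5 : 0 < δ * (y ⬝ᵥ v') ^ 2 / (1 - δ * (y ⬝ᵥ p)) := by positivity
    have h6 := mul_pos (add_pos_of_nonneg_of_pos h1 h4) (add_pos_of_nonneg_of_pos h2 h5)
    linarith
  · obtain ⟨δ, ⟨hδ1, hδ2⟩, hδ0⟩ := ((hev.filter_mono nhdsWithin_le_nhds).and
      (self_mem_nhdsWithin : Set.Iio (0 : ℝ) ∈ 𝓝[<] 0)).exists
    have hδ0' : δ < 0 := hδ0
    have h3 := key δ hδ1 hδ2
    have h4 : δ * (y ⬝ᵥ v) ^ 2 / (1 - δ * (y ⬝ᵥ p)) < 0 :=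
      div_neg_of_neg_of_pos (mul_neg_of_neg_of_pos hδ0' hy2) hδ2
    have h5 : δ * (y ⬝ᵥ v') ^ 2 / (1 - δ * (y ⬝ᵥ p)) < 0 :=
      div_neg_of_neg_of_pos (mul_neg_of_neg_of_pos hδ0' hy2') hδ2
    have h6 := mul_pos_of_neg_of_neg (add_neg_of_nonpos_of_neg h1 h4)
      (add_neg_of_nonpos_of_neg h2 h5)
    linarith

/-- colors are inherited when red vertices are deleted -/
theorem inherit {G : SemisimpleGraph N} {A0 : Matrix (Fin N) (Fin N) ℝ} {ε : ℝ}
    (R B : Finset (Fin N)) (hdis : ∀ w ∈ B, w ∉ R) (hnb : ∀ u ∈ R, ∃ w ∈ B, s(u, w) ∉ G)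
    (h0 : ∀ A, Near G A0 ε A → ND ∅ A)
    (hR : ∀ A, Near G A0 ε A → ∀ u ∈ R, ∀ v, Sol ∅ A (Pi.single u 1) v → 0 < v u)
    (hB : ∀ A, Near G A0 ε A → ∀ w ∈ B, ∀ v, Sol ∅ A (Pi.single w 1) v → v w < 0)
    (S : Finset (Fin N)) :
    S ⊆ R → ∀ A, Near G A0 ε A → ND S A ∧
      (∀ u ∈ R, u ∉ S → ∀ v, Sol S A (Pi.single u 1) v → 0 < v u) ∧
      (∀ w ∈ B, ∀ v, Sol S A (Pi.single w 1) v → v w < 0) := by
  classical
  induction S using Finset.induction_on with
  | empty =>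
    intro _ A hA
    exact ⟨h0 A hA, fun u hu _ => hR A hA u hu, hB A hA⟩
  | insert s S hs ih =>
    intro hsub
    have hsR : s ∈ R := hsub (Finset.mem_insert_self _ _)
    have hSR : S ⊆ R := fun x hx => hsub (Finset.mem_insert_of_mem hx)
    have IH := ih hSR
    -- nonsingularity
    have hnd : ∀ A, Near G A0 ε A → ND (insert s S) A := by
      intro A hA v hv1 hv2
      obtain ⟨hN, hr, hb⟩ := IH A hA
      obtain ⟨z, hz⟩ := exists_sol hN (Pi.single s 1)
      have hzs := hr s hsR hs z hz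
      have h1 : v - (A *ᵥ v) s • z = 0 := by
        refine hN _ (fun i hi => ?_) (fun i hi => ?_)
        · simp [hv1 i (Finset.mem_insert_of_mem hi), hz.1 i hi]
        · rw [mulVec_sub, mulVec_smul]
          simp only [Pi.sub_apply, Pi.smul_apply, smul_eq_mul, hz.2 i hi]
          by_cases his : i = s
          · subst his
            simp
          · rw [hv2 i (by simp [his, hi]), Pi.single_eq_of_ne his]
            ring
      have h2 := congrFun h1 s
      simp only [Pi.sub_apply, Pi.smul_apply, smul_eq_mul, Pi.zero_apply,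
        hv1 s (Finset.mem_insert_self _ _), zero_sub, neg_eq_zero, mul_eq_zero] at h2
      rcases h2 with h2 | h2
      · rw [h2, zero_smul, sub_zero] at h1
        exact h1
      · exact absurd h2 hzs.ne'
    -- blue vertices
    have hblue : ∀ A, Near G A0 ε A → ∀ w ∈ B, ∀ v, Sol (insert s S) A (Pi.single w 1) v →
        v w < 0 := by
      intro A hA w hw v hv
      obtain ⟨hN, hr, hb⟩ := IH A hA
      obtain ⟨z, hz⟩ := exists_sol hN (Pi.single s 1)
      have hzs := hr s hsR hs z hz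
      obtain ⟨y, hy⟩ := exists_sol hN (Pi.single w 1)
      have hyw := hb w hw y hy
      have hws : w ≠ s := by
        rintro rfl
        exact hdis w hw hsR
      have hsym : y s = z w := by
        have := sol_symm hA.1 hz hy
        rwa [dotProduct_single, dotProduct_single, mul_one, mul_one] at this
      have h1 : v - (y + (A *ᵥ v) s • z) = 0 := by
        refine hN _ (fun i hi => ?_) (fun i hi => ?_)
        · simp [hv.1 i (Finset.mem_insert_of_mem hi), hz.1 i hi, hy.1 i hi]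
        · rw [mulVec_sub, mulVec_add, mulVec_smul]
          simp only [Pi.sub_apply, Pi.add_apply, Pi.smul_apply, smul_eq_mul, hz.2 i hi,
            hy.2 i hi]
          by_cases his : i = s
          · subst his
            rw [Pi.single_eq_same, Pi.single_eq_of_ne hws.symm]
            ring
          · rw [hv.2 i (by simp [his, hi]), Pi.single_eq_of_ne his]
            ring
      have h2 := congrFun h1 s
      have h3 := congrFun h1 w
      simp only [Pi.sub_apply, Pi.add_apply, Pi.smul_apply, smul_eq_mul, Pi.zero_apply,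
        hv.1 s (Finset.mem_insert_self _ _)] at h2 h3
      have h4 : z s * v w = z s * y w - z w ^ 2 := by
        linear_combination (z s) * h3 - (z w) * h2 - (z w) * hsym
      have h5 : z s * v w < 0 := by
        rw [h4]
        have h6 := mul_neg_of_pos_of_neg hzs hyw
        have h7 := sq_nonneg (z w)
        linarith
      exact (pos_iff_neg_of_mul_neg h5).mp hzs
    intro A hA
    refine ⟨hnd A hA, ?_, hblue A hA⟩
    intro u hu huS v hv
    obtain ⟨w, hw, huw⟩ := hnb u hu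
    have hwS : w ∉ insert s S := fun h => hdis w hw (hsub h)
    obtain ⟨v', hv'⟩ := exists_sol (hnd A hA) (Pi.single w 1)
    have h1 := edge_neg hnd huw huS hwS hA hv hv'
    exact (neg_iff_pos_of_mul_neg (by rwa [mul_comm] at h1)).mp (hblue A hA w hw v' hv')

/-- a subspace on which the form is positive definite -/
theorem exists_pos {G : SemisimpleGraph N} {A0 : Matrix (Fin N) (Fin N) ℝ} {ε : ℝ}
    (R B : Finset (Fin N)) (hdis : ∀ w ∈ B, w ∉ R) (hnb : ∀ u ∈ R, ∃ w ∈ B, s(u, w) ∉ G)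
    (h0 : ∀ A, Near G A0 ε A → ND ∅ A)
    (hR : ∀ A, Near G A0 ε A → ∀ u ∈ R, ∀ v, Sol ∅ A (Pi.single u 1) v → 0 < v u)
    (hB : ∀ A, Near G A0 ε A → ∀ w ∈ B, ∀ v, Sol ∅ A (Pi.single w 1) v → v w < 0)
    {A : Matrix (Fin N) (Fin N) ℝ} (hA : Near G A0 ε A) :
    ∃ P : Matrix (Fin N) (Fin R.card) ℝ,
      ∀ x : Fin R.card → ℝ, x ≠ 0 → 0 < (P *ᵥ x) ⬝ᵥ (A *ᵥ (P *ᵥ x)) := by
  classical
  let e := R.equivFin.symm
  let S : Fin R.card → Finset (Fin N) := fun j =>
    (Finset.univ.filter (· < j)).image fun i => (e i : Fin N)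
  have hSR : ∀ j, S j ⊆ R := by
    intro j x hx
    obtain ⟨i, -, rfl⟩ := Finset.mem_image.mp hx
    exact (e i).2
  have hnot : ∀ j, (e j : Fin N) ∉ S j := by
    intro j hj
    obtain ⟨i, hi, h⟩ := Finset.mem_image.mp hj
    have h1 := e.injective (Subtype.ext h)
    rw [h1] at hi
    simp at hi
  have hI := fun j => inherit R B hdis hnb h0 hR hB (S j) (hSR j) A hA
  choose z hz using fun j => exists_sol (hI j).1 (Pi.single (e j : Fin N) 1)
  have hpos : ∀ j, 0 < z j (e j) := fun j => (hI j).2.1 (e j) (e j).2 (hnot j) (z j) (hz j)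
  have hd : ∀ j, z j ⬝ᵥ (A *ᵥ z j) = z j (e j) := by
    intro j
    rw [sol_dot (hz j) (z j) (hz j).1, dotProduct_single, mul_one]
  have hlt : ∀ i j, i < j → z j ⬝ᵥ (A *ᵥ z i) = 0 := by
    intro i j hij
    have hmem : (e i : Fin N) ∈ S j := Finset.mem_image.mpr ⟨i, by simp [hij], rfl⟩
    rw [sol_dot (hz i) (z j) (fun k hk => ?_), dotProduct_single, (hz j).1 _ hmem, zero_mul]
    obtain ⟨l, hl, rfl⟩ := Finset.mem_image.mp hk
    refine (hz j).1 _ (Finset.mem_image.mpr ⟨l, ?_, rfl⟩)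
    simp only [Finset.mem_filter, Finset.mem_univ, true_and] at hl ⊢
    exact hl.trans hij
  refine ⟨Matrix.of fun i j => z j i, fun x hx => ?_⟩
  set P : Matrix (Fin N) (Fin R.card) ℝ := Matrix.of fun i j => z j i with hP
  have hgram : ∀ j k, (Pᵀ * (A * P)) j k = z j ⬝ᵥ (A *ᵥ z k) := by
    intro j k
    simp only [Matrix.mul_apply, dotProduct, mulVec, hP, Matrix.transpose_apply, Matrix.of_apply]
  have hdiag : Pᵀ * (A * P) = Matrix.diagonal fun j => z j (e j) := by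
    ext j k
    rw [hgram]
    rcases lt_trichotomy j k with h | h | h
    · rw [dot_symm hA.1, hlt j k h, Matrix.diagonal_apply_ne _ h.ne]
    · subst h
      rw [hd, Matrix.diagonal_apply_eq]
    · rw [hlt k j h, Matrix.diagonal_apply_ne _ h.ne']
  have e1 : (P *ᵥ x) ⬝ᵥ (A *ᵥ (P *ᵥ x)) = x ⬝ᵥ ((Pᵀ * (A * P)) *ᵥ x) := by
    rw [← mulVec_mulVec, ← mulVec_mulVec, dotProduct_mulVec x, vecMul_transpose]
  rw [e1, hdiag]
  simp only [dotProduct, mulVec_diagonal]
  obtain ⟨i, hi⟩ := Function.ne_iff.mp hx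
  have hi0 : x i ≠ 0 := hi
  refine Finset.sum_pos' (fun j _ => ?_) ⟨i, Finset.mem_univ _, ?_⟩
  · have := (hpos j).le
    have h2 := mul_self_nonneg (x j)
    nlinarith
  · have h1 := hpos i
    have h2 : 0 < x i * x i := mul_self_pos.mpr hi0
    have h3 := mul_pos h1 h2
    nlinarith

end Pool.Agent.Lib.MP_97e4cf_co
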