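import Mathlib
import Pool.Agent.Lib.MP_97e4cf_co.Generic

set_option autoImplicit false

/-!
# The colors of the vertices, and the counting of colors
-/

namespace Pool.Agent.Lib.MP_97e4cf_co

open Matrix Filter Topology

variable {N : ℕ}

theorem near_self {G : SemisimpleGraph N} {A0 : Matrix (Fin N) (Fin N) ℝ} {ε : ℝ}
    (hs : A0.IsSymm) (hε : 0 < ε) : Near G A0 ε A0 :=
  ⟨hs, fun i j _ => by simpa using hε⟩

theorem near_segment {G : SemisimpleGraph N} {A0 A : Matrix (Fin N) (Fin N) ℝ} {ε : ℝ}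
    (hs : A0.IsSymm) (hA : Near G A0 ε A) {t : ℝ} (h0 : 0 ≤ t) (h1 : t ≤ 1) :
    Near G A0 ε (A0 + t • (A - A0)) := by
  refine ⟨?_, fun i j hij => ?_⟩
  · refine Matrix.IsSymm.ext fun i j => ?_
    have e1 := hs.apply i j
    have e2 := hA.1.apply i j
    simp only [Matrix.add_apply, Matrix.smul_apply, Matrix.sub_apply, e1, e2]
  · have e3 : (A0 + t • (A - A0)) i j - A0 i j = t * (A i j - A0 i j) := by
      simp only [Matrix.add_apply, Matrix.smul_apply, Matrix.sub_apply, smul_eq_mul]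
      ring
    rw [e3, abs_mul, abs_of_nonneg h0]
    calc t * |A i j - A0 i j| ≤ 1 * |A i j - A0 i j| :=
          mul_le_mul_of_nonneg_right h1 (abs_nonneg _)
      _ < ε := by rw [one_mul]; exact hA.2 i j hij

theorem near_neg {G : SemisimpleGraph N} {A0 A : Matrix (Fin N) (Fin N) ℝ} {ε : ℝ}
    (hA : Near G (-A0) ε A) : Near G A0 ε (-A) := by
  refine ⟨?_, fun i j hij => ?_⟩
  · refine Matrix.IsSymm.ext fun i j => ?_
    have e2 := hA.1.apply i j
    simp only [Matrix.neg_apply, e2]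
  · have h1 := hA.2 i j hij
    have e3 : (-A) i j - A0 i j = -(A i j - (-A0) i j) := by
      simp only [Matrix.neg_apply]
      ring
    rw [e3, abs_neg]
    exact h1

theorem adj_eq {A : Matrix (Fin N) (Fin N) ℝ} {u : Fin N} {v : Fin N → ℝ}
    (hv : Sol ∅ A (Pi.single u 1) v) : A.adjugate u u * A.det = v u * A.det ^ 2 := by
  have h1 : A *ᵥ v = Pi.single u 1 := funext fun i => hv.2 i (Finset.notMem_empty i)
  have h2 : A.adjugate *ᵥ (A *ᵥ v) = A.det • v := by
    rw [mulVec_mulVec, adjugate_mul, smul_mulVec, one_mulVec]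
  rw [h1] at h2
  have h3 := congrFun h2 u
  rw [mulVec_single_one, Matrix.col_apply, Pi.smul_apply, smul_eq_mul] at h3
  rw [h3]
  ring

theorem det_ne {A : Matrix (Fin N) (Fin N) ℝ} (h : ND ∅ A) : A.det ≠ 0 := by
  intro h0
  obtain ⟨v, hv, hv0⟩ := Matrix.exists_mulVec_eq_zero_iff.mpr h0
  exact hv (h v (by simp) (fun i _ => by rw [hv0]; rfl))

/-- the sign of the diagonal entry of the inverse is constant -/
theorem sign_const {G : SemisimpleGraph N} {A0 : Matrix (Fin N) (Fin N) ℝ} {ε : ℝ}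
    (hs : A0.IsSymm) (h0 : ∀ A, Near G A0 ε A → ND ∅ A) {u : Fin N}
    (hne : ∀ A, Near G A0 ε A → ∀ v, Sol ∅ A (Pi.single u 1) v → v u ≠ 0)
    {A : Matrix (Fin N) (Fin N) ℝ} (hA0 : Near G A0 ε A0) (hA : Near G A0 ε A)
    {v0 v : Fin N → ℝ} (hv0 : Sol ∅ A0 (Pi.single u 1) v0) (hv : Sol ∅ A (Pi.single u 1) v) :
    0 < v0 u * v u := by
  set φ : ℝ → ℝ := fun t => (A0 + t • (A - A0)).adjugate u u * (A0 + t • (A - A0)).det with hφ
  have hcont : Continuous φ := by
    have h1 : Continuous fun t : ℝ => A0 + t • (A - A0) := by fun_prop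
    exact (h1.matrix_adjugate.matrix_elem u u).mul h1.matrix_det
  have hφne : ∀ t : ℝ, 0 ≤ t → t ≤ 1 → φ t ≠ 0 := by
    intro t ht0 ht1
    have h1 := near_segment hs hA ht0 ht1
    obtain ⟨w, hw⟩ := exists_sol (h0 _ h1) (Pi.single u 1)
    have h2 := hne _ h1 w hw
    simp only [hφ]
    rw [adj_eq hw]
    exact mul_ne_zero h2 (pow_ne_zero 2 (det_ne (h0 _ h1)))
  have e0 : φ 0 = v0 u * A0.det ^ 2 := by
    simp only [hφ, zero_smul, add_zero]
    exact adj_eq hv0
  have e1 : φ 1 = v u * A.det ^ 2 := by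
    simp only [hφ, one_smul, add_sub_cancel]
    exact adj_eq hv
  have hd0 : 0 < A0.det ^ 2 := by
    have := det_ne (h0 _ hA0)
    positivity
  have hd : 0 < A.det ^ 2 := by
    have := det_ne (h0 _ hA)
    positivity
  have hn0 := hne A0 hA0 v0 hv0
  have hn := hne A hA v hv
  by_contra hcon
  push Not at hcon
  have hlt : v0 u * v u < 0 := lt_of_le_of_ne hcon (mul_ne_zero hn0 hn)
  have hprod : φ 0 * φ 1 < 0 := by
    rw [e0, e1]
    have h1 : v0 u * A0.det ^ 2 * (v u * A.det ^ 2) =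
        (v0 u * v u) * (A0.det ^ 2 * A.det ^ 2) := by ring
    rw [h1]
    exact mul_neg_of_neg_of_pos hlt (mul_pos hd0 hd)
  have hmem : (0 : ℝ) ∈ Set.uIcc (φ 0) (φ 1) := by
    rw [Set.mem_uIcc]
    rcases mul_neg_iff.mp hprod with ⟨h1, h2⟩ | ⟨h1, h2⟩
    · exact Or.inr ⟨h2.le, h1.le⟩
    · exact Or.inl ⟨h1.le, h2.le⟩
  obtain ⟨t, ht, ht0⟩ := intermediate_value_uIcc (hcont.continuousOn (s := Set.uIcc 0 1)) hmem
  rw [Set.uIcc_of_le zero_le_one] at ht
  exact hφne t ht.1 ht.2 ht0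

theorem exists_neg {G : SemisimpleGraph N} {A0 : Matrix (Fin N) (Fin N) ℝ} {ε : ℝ}
    (R B : Finset (Fin N)) (hdis : ∀ w ∈ B, w ∉ R) (hnb : ∀ w ∈ B, ∃ u ∈ R, s(w, u) ∉ G)
    (h0 : ∀ A, Near G A0 ε A → ND ∅ A)
    (hR : ∀ A, Near G A0 ε A → ∀ u ∈ R, ∀ v, Sol ∅ A (Pi.single u 1) v → 0 < v u)
    (hB : ∀ A, Near G A0 ε A → ∀ w ∈ B, ∀ v, Sol ∅ A (Pi.single w 1) v → v w < 0)
    {A : Matrix (Fin N) (Fin N) ℝ} (hA : Near G A0 ε A) :
    ∃ P : Matrix (Fin N) (Fin B.card) ℝ,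
      ∀ x : Fin B.card → ℝ, x ≠ 0 → (P *ᵥ x) ⬝ᵥ (A *ᵥ (P *ᵥ x)) < 0 := by
  have hsol : ∀ (A : Matrix (Fin N) (Fin N) ℝ) (u : Fin N) (v : Fin N → ℝ),
      Sol ∅ A (Pi.single u 1) v → Sol ∅ (-A) (Pi.single u 1) (-v) := by
    intro A u v hv
    refine ⟨by simp, fun i hi => ?_⟩
    rw [neg_mulVec_neg]
    exact hv.2 i hi
  obtain ⟨P, hP⟩ := exists_pos (G := G) (A0 := -A0) (ε := ε) B R
    (fun u hu hu' => hdis u hu' hu) hnb
    (fun A hA => by
      intro v hv1 hv2
      refine h0 _ (near_neg hA) v hv1 fun i hi => ?_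
      rw [neg_mulVec, Pi.neg_apply, hv2 i hi, neg_zero])
    (fun A hA u hu v hv => by
      have := hB _ (near_neg hA) u hu _ (hsol A u v hv)
      simpa using this)
    (fun A hA u hu v hv => by
      have := hR _ (near_neg hA) u hu _ (hsol A u v hv)
      simpa using this)
    (A := -A) (near_neg (A := A) (A0 := -A0) (by rwa [neg_neg]))
  refine ⟨P, fun x hx => ?_⟩
  have := hP x hx
  rw [neg_mulVec, dotProduct_neg] at this
  linarith

/-- The inertia of an interior point is the size vector of a proper bicoloring. -/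
theorem bicoloring_of_near {G : SemisimpleGraph N} {A0 : Matrix (Fin N) (Fin N) ℝ} {ε : ℝ}
    (hε : 0 < ε) (hs : A0.IsSymm) (h0 : ∀ A, Near G A0 ε A → ND ∅ A) {m n : ℕ}
    (hI : HasInertia A0 m n 0) :
    ∃ c : Fin N → Bool, IsProperBicoloring G c ∧
      (Finset.univ.filter fun i => c i = true).card = m ∧
      (Finset.univ.filter fun i => c i = false).card = n := by
  classical
  have hA0 : Near G A0 ε A0 := near_self hs hε
  choose v hv using fun u => exists_sol (h0 A0 hA0) (Pi.single u 1)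
  have hedge : ∀ i j, s(i, j) ∉ G → v i i * v j j < 0 := fun i j hij =>
    edge_neg h0 hij (Finset.notMem_empty _) (Finset.notMem_empty _) hA0 (hv i) (hv j)
  let R : Finset (Fin N) := Finset.univ.filter fun u => (∃ w, s(u, w) ∉ G) ∧ 0 < v u u
  let B : Finset (Fin N) := Finset.univ.filter fun u => (∃ w, s(u, w) ∉ G) ∧ v u u < 0
  have hRm : ∀ u, u ∈ R ↔ (∃ w, s(u, w) ∉ G) ∧ 0 < v u u := fun u => by simp [R]
  have hBm : ∀ u, u ∈ B ↔ (∃ w, s(u, w) ∉ G) ∧ v u u < 0 := fun u => by simp [B]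
  have hdis : ∀ w ∈ B, w ∉ R := by
    intro w hw hw'
    have h1 := ((hBm w).mp hw).2
    have h2 := ((hRm w).mp hw').2
    linarith
  have hne : ∀ u, (∃ w, s(u, w) ∉ G) → ∀ A, Near G A0 ε A → ∀ x,
      Sol ∅ A (Pi.single u 1) x → x u ≠ 0 := by
    rintro u ⟨w, hw⟩ A hA x hx h
    obtain ⟨x', hx'⟩ := exists_sol (h0 A hA) (Pi.single w 1)
    have h1 := edge_neg h0 hw (Finset.notMem_empty _) (Finset.notMem_empty _) hA hx hx'
    rw [h, zero_mul] at h1
    exact lt_irrefl _ h1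
  have hR : ∀ A, Near G A0 ε A → ∀ u ∈ R, ∀ x, Sol ∅ A (Pi.single u 1) x → 0 < x u := by
    intro A hA u hu x hx
    obtain ⟨h1, h2⟩ := (hRm u).mp hu
    have h3 := sign_const hs h0 (hne u h1) hA0 hA (hv u) hx
    exact (pos_iff_pos_of_mul_pos h3).mp h2
  have hB : ∀ A, Near G A0 ε A → ∀ u ∈ B, ∀ x, Sol ∅ A (Pi.single u 1) x → x u < 0 := by
    intro A hA u hu x hx
    obtain ⟨h1, h2⟩ := (hBm u).mp hu
    have h3 := sign_const hs h0 (hne u h1) hA0 hA (hv u) hx
    exact (neg_iff_neg_of_mul_pos h3).mp h2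
  have hnbR : ∀ u ∈ R, ∃ w ∈ B, s(u, w) ∉ G := by
    intro u hu
    obtain ⟨⟨w, hw⟩, h2⟩ := (hRm u).mp hu
    refine ⟨w, (hBm w).mpr ⟨⟨u, by rwa [Sym2.eq_swap]⟩, ?_⟩, hw⟩
    exact (pos_iff_neg_of_mul_neg (hedge u w hw)).mp h2
  have hnbB : ∀ w ∈ B, ∃ u ∈ R, s(w, u) ∉ G := by
    intro u hu
    obtain ⟨⟨w, hw⟩, h2⟩ := (hBm u).mp hu
    refine ⟨w, (hRm w).mpr ⟨⟨u, by rwa [Sym2.eq_swap]⟩, ?_⟩, hw⟩
    exact (neg_iff_pos_of_mul_neg (hedge u w hw)).mp h2
  obtain ⟨P, hP⟩ := exists_pos R B hdis hnbR h0 hR hB hA0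
  obtain ⟨Q, hQ⟩ := exists_neg R B hdis hnbB h0 hR hB hA0
  obtain ⟨hH, hm, hn, hz⟩ := hI
  have hRle : R.card ≤ m := hm ▸ card_pos_ge hH P hP
  have hBle : B.card ≤ n := hn ▸ card_neg_ge hH Q hQ
  have hsum : m + n = N := by
    have hcard : (Finset.univ : Finset (Fin N)).card = N := by simp
    rw [← hm, ← hn, ← Finset.card_union_of_disjoint]
    · conv_rhs => rw [← hcard]
      congr 1
      ext i
      simp only [Finset.mem_union, Finset.mem_filter, Finset.mem_univ, true_and, iff_true]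
      rcases lt_trichotomy 0 (hH.eigenvalues i) with h | h | h
      · exact Or.inl h
      · have hmem : i ∈ Finset.univ.filter (fun i => hH.eigenvalues i = 0) := by simp [← h]
        rw [Finset.card_eq_zero.mp hz] at hmem
        simp at hmem
      · exact Or.inr h
    · rw [Finset.disjoint_left]
      intro i hi hi'
      simp only [Finset.mem_filter, Finset.mem_univ, true_and] at hi hi'
      linarith
  -- the isolated vertices
  have hdisj : Disjoint R B := Finset.disjoint_left.mpr fun x hx hx' => hdis x hx' hx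
  have hI0 : (R ∪ B)ᶜ.card = N - (R.card + B.card) := by
    rw [Finset.card_compl, Fintype.card_fin, Finset.card_union_of_disjoint hdisj]
  obtain ⟨K, hK, hKc⟩ := Finset.exists_subset_card_eq (s := (R ∪ B)ᶜ) (n := m - R.card)
    (by rw [hI0]; omega)
  have hKR : Disjoint R K := by
    rw [Finset.disjoint_left]
    intro x hx hx'
    have := hK hx'
    rw [Finset.mem_compl, Finset.mem_union, not_or] at this
    exact this.1 hx
  have hKB : ∀ x ∈ B, x ∉ K := by
    intro x hx hx'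
    have := hK hx'
    rw [Finset.mem_compl, Finset.mem_union, not_or] at this
    exact this.2 hx
  have hc1 : (Finset.univ.filter fun i => decide (i ∈ R ∪ K) = true).card = m := by
    have : (Finset.univ.filter fun i => decide (i ∈ R ∪ K) = true) = R ∪ K := by
      ext i
      simp
    rw [this, Finset.card_union_of_disjoint hKR, hKc]
    omega
  refine ⟨fun i => decide (i ∈ R ∪ K), ?_, hc1, ?_⟩
  · intro i j hij
    have h1 := hedge i j hij
    have hi : ∃ w, s(i, w) ∉ G := ⟨j, hij⟩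
    have hj : ∃ w, s(j, w) ∉ G := ⟨i, by rwa [Sym2.eq_swap]⟩
    rcases mul_neg_iff.mp h1 with ⟨h2, h3⟩ | ⟨h2, h3⟩
    · have hiR : i ∈ R := (hRm i).mpr ⟨hi, h2⟩
      have hjB : j ∈ B := (hBm j).mpr ⟨hj, h3⟩
      have e1 : decide (i ∈ R ∪ K) = true := by simp [hiR]
      have e2 : decide (j ∈ R ∪ K) = false := by
        simp [hdis j hjB, hKB j hjB]
      intro h
      have h' : decide (i ∈ R ∪ K) = decide (j ∈ R ∪ K) := h
      rw [e1, e2] at h'
      exact absurd h' (by decide)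
    · have hjR : j ∈ R := (hRm j).mpr ⟨hj, h3⟩
      have hiB : i ∈ B := (hBm i).mpr ⟨hi, h2⟩
      have e1 : decide (j ∈ R ∪ K) = true := by simp [hjR]
      have e2 : decide (i ∈ R ∪ K) = false := by
        simp [hdis i hiB, hKB i hiB]
      intro h
      have h' : decide (i ∈ R ∪ K) = decide (j ∈ R ∪ K) := h
      rw [e1, e2] at h'
      exact absurd h' (by decide)
  · have h2 := Finset.card_filter_add_card_filter_not (s := (Finset.univ : Finset (Fin N)))
      (fun i => decide (i ∈ R ∪ K) = true)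
    rw [hc1, Finset.card_univ, Fintype.card_fin] at h2
    have h3 : (Finset.univ.filter fun i => ¬ decide (i ∈ R ∪ K) = true) =
        Finset.univ.filter fun i => decide (i ∈ R ∪ K) = false := by
      ext i
      simp
    rw [h3] at h2
    change (Finset.univ.filter fun i => decide (i ∈ R ∪ K) = false).card = n
    omega

end Pool.Agent.Lib.MP_97e4cf_co
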