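import Mathlib
import Pool.Agent.Lib.MP_97e4cf_co.Defs
import Pool.Agent.Lib.MP_97e4cf_co.Inertia

set_option autoImplicit false

namespace Pool.Agent.Lib.MP_97e4cf_co

open Matrix

/-- bilinear estimate -/
theorem abs_quad_le {N : ℕ} (E : Fin N → Fin N → ℝ) (ε : ℝ) (hE : ∀ i j, |E i j| ≤ ε)
    (z : Fin N → ℝ) : |∑ i, ∑ j, z i * E i j * z j| ≤ ε * (N * ∑ i, z i ^ 2) := by
  have hε : ∀ i j : Fin N, |z i * E i j * z j| ≤ ε * ((z i ^ 2 + z j ^ 2) / 2) := by
    intro i j
    rw [abs_mul, abs_mul]
    have h1 : |z i| * |z j| ≤ (z i ^ 2 + z j ^ 2) / 2 := by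
      have := sq_nonneg (|z i| - |z j|)
      have h2 := sq_abs (z i)
      have h3 := sq_abs (z j)
      nlinarith
    have h4 : 0 ≤ |z i| * |z j| := by positivity
    have h5 := hE i j
    have h6 : 0 ≤ ε := (abs_nonneg _).trans h5
    calc |z i| * |E i j| * |z j| = |E i j| * (|z i| * |z j|) := by ring
      _ ≤ ε * (|z i| * |z j|) := mul_le_mul_of_nonneg_right h5 h4
      _ ≤ ε * ((z i ^ 2 + z j ^ 2) / 2) := mul_le_mul_of_nonneg_left h1 h6
  calc |∑ i, ∑ j, z i * E i j * z j| ≤ ∑ i, |∑ j, z i * E i j * z j| := Finset.abs_sum_le_sum_abs _ _
    _ ≤ ∑ i, ∑ j, |z i * E i j * z j| :=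
        Finset.sum_le_sum fun i _ => Finset.abs_sum_le_sum_abs _ _
    _ ≤ ∑ i, ∑ j, ε * ((z i ^ 2 + z j ^ 2) / 2) :=
        Finset.sum_le_sum fun i _ => Finset.sum_le_sum fun j _ => hε i j
    _ = ε * (N * ∑ i, z i ^ 2) := by
        simp only [← Finset.mul_sum, ← Finset.sum_div, Finset.sum_add_distrib]
        simp only [Finset.sum_const, Finset.card_univ, Fintype.card_fin, nsmul_eq_mul, ← Finset.mul_sum]
        ring

/-- If the complement of `G` has a proper bicoloring then `G` is full-rank typical. -/
theorem fullRankTypical_of_bicoloring {N : ℕ} (G : SemisimpleGraph N) (c : Fin N → Bool)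
    (hc : IsProperBicoloring G c) : FullRankTypical G := by
  classical
  -- base point
  let M0 : PartialMatrix G := fun e => Sym2.lift
    ⟨fun i j => if i = j then (if c i = true then (1 : ℝ) else -1) else 0, by
      intro i j
      by_cases h : i = j
      · subst h; rfl
      · have h' : ¬ j = i := fun h2 => h h2.symm
        simp [h, h']⟩ e.1
  set ε : ℝ := 1 / (2 * N + 1) with hε
  have hεpos : 0 < ε := by positivity
  let U : Set (PartialMatrix G) := Set.pi Set.univ (fun e => Set.Ioo (M0 e - ε) (M0 e + ε))
  have hUopen : IsOpen U := isOpen_set_pi Set.finite_univ (fun e _ => isOpen_Ioo)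
  have hUne : U.Nonempty := ⟨M0, fun e _ => ⟨by linarith, by linarith⟩⟩
  -- any completion of any M in U is nonsingular
  have key : ∀ M ∈ U, ∀ A, IsCompletion G M A → A.rank = N := by
    intro M hM A hA
    obtain ⟨hsymm, hent⟩ := hA
    -- entries within a color class are near diagonal
    have hnear : ∀ i j, c i = c j →
        |A i j - (if i = j then (if c i = true then (1 : ℝ) else -1) else 0)| ≤ ε := by
      intro i j hij
      have hmem : s(i, j) ∈ G := by
        by_contra h
        exact hc i j h hij
      have h1 : M ⟨s(i, j), hmem⟩ ∈ Set.Ioo (M0 ⟨s(i, j), hmem⟩ - ε) (M0 ⟨s(i, j), hmem⟩ + ε) :=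
        hM ⟨s(i, j), hmem⟩ (Set.mem_univ _)
      rw [hent i j hmem]
      have h2 : M0 ⟨s(i, j), hmem⟩ = (if i = j then (if c i = true then (1 : ℝ) else -1) else 0) := rfl
      rw [h2] at h1
      rw [abs_le]
      constructor
      · linarith [h1.1]
      · linarith [h1.2]
    -- kernel is trivial
    have hker : ∀ z : Fin N → ℝ, A *ᵥ z = 0 → z = 0 := by
      intro z hz
      let σ : Fin N → ℝ := fun i => if c i = true then 1 else -1
      have hσ : ∀ i, σ i ^ 2 = 1 := by
        intro i; by_cases h : c i = true <;> simp [σ, h]
      have h0 : ∑ i, ∑ j, σ i * z i * A i j * z j = 0 := by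
        have : ∀ i, ∑ j, σ i * z i * A i j * z j = σ i * z i * (A *ᵥ z) i := by
          intro i
          simp only [mulVec, dotProduct, Finset.mul_sum]
          apply Finset.sum_congr rfl
          intro j _; ring
        simp only [this, hz]
        simp
      -- the cross terms cancel
      let B : Fin N → Fin N → ℝ := fun i j => if c i = c j then σ i * A i j else 0
      have hcross : ∑ i, ∑ j, σ i * z i * A i j * z j = ∑ i, ∑ j, z i * B i j * z j := by
        have hx : ∑ i, ∑ j, (if c i = c j then 0 else σ i * z i * A i j * z j) = 0 := by
          have hneg : ∑ i, ∑ j, (if c i = c j then 0 else σ i * z i * A i j * z j)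
              = - ∑ i, ∑ j, (if c i = c j then 0 else σ i * z i * A i j * z j) := by
            rw [← Finset.sum_neg_distrib]
            conv_lhs => rw [Finset.sum_comm]
            apply Finset.sum_congr rfl
            intro i _
            rw [← Finset.sum_neg_distrib]
            apply Finset.sum_congr rfl
            intro j _
            by_cases h : c i = c j
            · simp [h]
            · have h' : ¬ c j = c i := fun h2 => h h2.symm
              simp only [h, h', if_false]
              have hs : σ j = - σ i := by
                simp only [σ]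
                cases hi : c i <;> cases hj : c j <;> simp_all
              have hsy : A j i = A i j := hsymm.apply i j
              rw [hs, hsy]; ring
          linarith
        have hsplit : ∀ i j, σ i * z i * A i j * z j =
            z i * B i j * z j + (if c i = c j then 0 else σ i * z i * A i j * z j) := by
          intro i j
          by_cases h : c i = c j
          · simp only [B, h, if_true]; ring
          · simp [B, h]
        calc ∑ i, ∑ j, σ i * z i * A i j * z j
            = ∑ i, ∑ j, (z i * B i j * z j +
              (if c i = c j then 0 else σ i * z i * A i j * z j)) := by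
              apply Finset.sum_congr rfl; intro i _
              apply Finset.sum_congr rfl; intro j _
              exact hsplit i j
          _ = ∑ i, ∑ j, z i * B i j * z j := by
              simp only [Finset.sum_add_distrib, hx, add_zero]
      -- B is close to the identity
      let E : Fin N → Fin N → ℝ := fun i j => B i j - (if i = j then 1 else 0)
      have hE : ∀ i j, |E i j| ≤ ε := by
        intro i j
        by_cases h : c i = c j
        · have h1 := hnear i j h
          have h2 : E i j = σ i * (A i j - (if i = j then (if c i = true then (1 : ℝ) else -1) else 0)) := by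
            simp only [E, B, h, if_true]
            by_cases hij : i = j
            · subst hij
              simp only [if_true]
              have := hσ i
              simp only [σ] at this ⊢
              by_cases hci : c i = true
              · simp [hci]
              · simp [hci]; ring
            · simp [hij]
          rw [h2, abs_mul]
          have h3 : |σ i| = 1 := by
            simp only [σ]; by_cases hci : c i = true <;> simp [hci]
          rw [h3, one_mul]; exact h1
        · have hij : i ≠ j := fun h2 => h (by rw [h2])
          simp only [E, B, h, hij, if_false]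
          simp [hεpos.le]
      have hid : ∑ i, ∑ j, z i * B i j * z j = ∑ i, z i ^ 2 + ∑ i, ∑ j, z i * E i j * z j := by
        have : ∀ i, ∑ j, z i * B i j * z j = z i ^ 2 + ∑ j, z i * E i j * z j := by
          intro i
          have h1 : ∑ j, z i * (if i = j then (1 : ℝ) else 0) * z j = z i ^ 2 := by
            simp [Finset.sum_ite_eq, sq]
          rw [← h1, ← Finset.sum_add_distrib]
          apply Finset.sum_congr rfl
          intro j _
          simp only [E]; ring
        simp only [this, Finset.sum_add_distrib]
      have hbound := abs_quad_le E ε hE z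
      rw [hcross, hid] at h0
      have hS : 0 ≤ ∑ i, z i ^ 2 := Finset.sum_nonneg fun i _ => sq_nonneg _
      have hlt : ε * (N * ∑ i, z i ^ 2) ≤ (1 / 2) * ∑ i, z i ^ 2 := by
        have : ε * N ≤ 1 / 2 := by
          rw [hε, div_mul_eq_mul_div, div_le_div_iff₀ (by positivity) (by norm_num)]
          linarith
        calc ε * (N * ∑ i, z i ^ 2) = (ε * N) * ∑ i, z i ^ 2 := by ring
          _ ≤ (1 / 2) * ∑ i, z i ^ 2 := mul_le_mul_of_nonneg_right this hS
      have hzero : ∑ i, z i ^ 2 = 0 := by
        have h3 := abs_le.mp (hbound.trans hlt)
        linarith [h3.1, h3.2]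
      funext i
      have := (Finset.sum_eq_zero_iff_of_nonneg (fun i _ => sq_nonneg (z i))).mp hzero i
        (Finset.mem_univ i)
      simpa using this
    -- full rank
    have hinj : Function.Injective A.mulVec := by
      intro x y hxy
      have : A *ᵥ (x - y) = 0 := by rw [mulVec_sub, sub_eq_zero]; exact hxy
      exact sub_eq_zero.mp (hker _ this)
    have hunit : IsUnit A := Matrix.mulVec_injective_iff_isUnit.mp hinj
    rw [Matrix.rank_of_isUnit A hunit, Fintype.card_fin]
  refine ⟨U, hUopen, hUne, fun M hM => ⟨?_, fun A hA => (key M hM A hA).ge⟩⟩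
  -- existence of a completion
  let A : Matrix (Fin N) (Fin N) ℝ := fun i j => if h : s(i, j) ∈ G then M ⟨s(i, j), h⟩ else 0
  have hcomp : IsCompletion G M A := by
    constructor
    · apply Matrix.IsSymm.ext
      intro i j
      simp only [A]
      have : s(j, i) = s(i, j) := Sym2.eq_swap
      simp only [this]
    · intro i j h
      simp [A, h]
  exact ⟨A, hcomp, key M hM A hcomp⟩

end Pool.Agent.Lib.MP_97e4cf_co
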